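import Pool.Agent.W93.AU14

/-!
# The Möbius function and shifted primes: almost all shifts in every automatic set which is not sparse

The exponential sum bounds for the Möbius function (Davenport's theorem with arbitrary powers of the
logarithm) are from the starting files (`Pool.Agent.H807R2.Dav`, `Pool.Agent.H373R2.T7`).
From Mathlib: `DFA ℕ σ`: the deterministic automata with the set of states `σ` and the alphabet `ℕ`;
`M.accepts`: the set of the words accepted by `M`; `Nat.digits b v`: the digits of `v` in base `b`, from the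
least significant to the most significant one.
-/

set_option autoImplicit false

namespace Pool.Agent.Results.MP_0bfb7f_nt.AutomaticShifts

open Finset

/-- The Möbius function on the integers, `0` at the integers `m ≤ 0`, with complex values. -/
noncomputable def mob (m : ℤ) : ℂ := if 1 ≤ m then ((ArithmeticFunction.moebius m.toNat : ℤ) : ℂ) else 0

open Classical in
/-- The number of the integers `0 ≤ v < N` with the property `E` whose base `b` digits are accepted by the
automaton `M`. -/
noncomputable def num {σ : Type} (b : ℕ) (M : DFA ℕ σ) (N : ℕ) (E : ℕ → Prop) : ℝ :=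
  (((range N).filter fun v => Nat.digits b v ∈ M.accepts ∧ E v).card : ℝ)

/-- Let `S` be a `b`-automatic set: the set of the integers `v ≥ 0` whose base `b` digits are accepted by a finite
automaton `M`. Suppose that `S` is not sparse: the number of the elements of `S` below `N` is not bounded by a power of
`log N`. Let `κ ≠ 0`, `B`, `T` and `U` be fixed. Let `N` be large and let `c` be an integer with `|c| ≤ B N`. For
each of at most `log ^ T N` indices `l` let `θ l : ℕ → ℂ` be an arbitrary function bounded by `1` (for example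
`θ l = 1`). Then all the elements `v < N` of `S` with at most `#(S ∩ [0, N)) / log ^ U N` exceptions have the
following property: the shift `y = c + κ v` satisfies `|∑ n ≤ x, θ l n * Λ(n) * μ(n + y)| ≤ N / log ^ U N` for all
`l` and all `x ≤ B N`. -/
theorem result {σ : Type} [Finite σ] (b : ℕ) (hb : 2 ≤ b) (M : DFA ℕ σ)
    (hM : ∀ k : ℕ, ∃ᶠ N : ℕ in Filter.atTop, Real.log N ^ k < num b M N (fun _ => True))
    (κ : ℤ) (hκ : κ ≠ 0) (B T U : ℕ) :
    ∃ N₀ : ℕ, ∀ N, N₀ ≤ N → ∀ c : ℤ, |c| ≤ B * N →
      ∀ L : ℕ, (L : ℝ) ≤ Real.log N ^ T → ∀ θ : Fin L → ℕ → ℂ, (∀ l n, ‖θ l n‖ ≤ 1) →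
        num b M N (fun v => ¬ ∀ l, ∀ x : ℕ, x ≤ B * N →
          ‖∑ n ∈ Icc 1 x, θ l n * ((ArithmeticFunction.vonMangoldt n : ℝ) : ℂ) * mob (n + (c + κ * v))‖ ≤
            N / Real.log N ^ U) ≤
          num b M N (fun _ => True) / Real.log N ^ U := by
  classical
  have := Fintype.ofFinite σ
  have hnum : ∀ N, num b M N (fun _ => True) = (((range N).filter fun v => Nat.digits b v ∈ M.accepts).card : ℝ) := by
    intro N
    unfold num
    congr 2
    ext v
    simp only [mem_filter, and_true]
  obtain ⟨N₀, h0⟩ := Pool.Agent.W93.AU.au_corr b hb M (fun k => (hM k).mono fun N hN => by rw [hnum] at hN; exact hN)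
    Pool.Agent.H373R2.T7.muC Pool.Agent.W93.LM.nice_muC κ hκ B (T + 2) U
  refine ⟨N₀ + B + 8, fun N hN c hc L hL θ hθ => ?_⟩
  have hNr : (8 : ℝ) ≤ N := by exact_mod_cast (by omega : 8 ≤ N)
  have hLog2 : 2 ≤ Real.log (N : ℝ) := by
    rw [Real.le_log_iff_exp_le (by linarith)]
    have h1 : Real.exp 2 = Real.exp 1 ^ 2 := by rw [← Real.exp_nat_mul]; norm_num
    rw [h1]
    have h2 := Real.exp_one_lt_d9
    have h3 := Real.exp_pos 1
    nlinarith
  have hLog1 : 1 ≤ Real.log (N : ℝ) := by linarith
  have hΛ : ∀ n : ℕ, 1 ≤ n → n ≤ B * N → ArithmeticFunction.vonMangoldt n ≤ Real.log N ^ 2 := by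
    intro n hn1 hn
    refine ArithmeticFunction.vonMangoldt_le_log.trans ?_
    have h1 : Real.log (n : ℝ) ≤ Real.log ((N : ℝ) * N) := by
      apply Real.log_le_log (by exact_mod_cast hn1)
      have : n ≤ N * N := hn.trans (Nat.mul_le_mul_right _ (by omega))
      exact_mod_cast this
    rw [Real.log_mul (by positivity) (by positivity)] at h1
    nlinarith
  have h1 := h0 N (by omega) c hc L (hL.trans (pow_le_pow_right₀ hLog1 (by omega)))
    (fun l n => if hl : l < L then θ ⟨l, hl⟩ n * ((ArithmeticFunction.vonMangoldt n : ℝ) : ℂ) else 0) (by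
      intro l hl n hn1 hn2
      simp only [hl, dif_pos]
      rw [norm_mul, Complex.norm_real, Real.norm_eq_abs, abs_of_nonneg ArithmeticFunction.vonMangoldt_nonneg]
      calc ‖θ ⟨l, hl⟩ n‖ * ArithmeticFunction.vonMangoldt n ≤ 1 * Real.log N ^ 2 :=
            mul_le_mul (hθ _ n) (hΛ n hn1 hn2) ArithmeticFunction.vonMangoldt_nonneg zero_le_one
        _ = Real.log N ^ 2 := one_mul _
        _ ≤ _ := pow_le_pow_right₀ hLog1 (by omega))
    (fun v => ¬ ∀ l, ∀ x : ℕ, x ≤ B * N →
          ‖∑ n ∈ Icc 1 x, θ l n * ((ArithmeticFunction.vonMangoldt n : ℝ) : ℂ) * mob (n + (c + κ * v))‖ ≤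
            N / Real.log N ^ U) (by
    intro v hv
    push Not at hv
    obtain ⟨l, x, hx, h2⟩ := hv
    refine ⟨l, l.2, x, hx, lt_of_lt_of_eq h2 ?_⟩
    simp only [l.2, dif_pos]
    rfl)
  rw [hnum]
  refine le_trans (le_of_eq ?_) h1
  unfold num
  congr 2

end Pool.Agent.Results.MP_0bfb7f_nt.AutomaticShifts
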