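import Pool.Agent.Y820.LL.C2
import Pool.Agent.Y820.LL.P
import Pool.Agent.Y820.LF.Fin

/-!
# The Möbius function and shifted primes: the shift arises from an arbitrary integer by changing boundedly many
digits (for example by adding boundedly many powers of two)

The method and its library are those of the starting files on the Liouville function (`Pool.Agent.Y820.LL`): the
average over random sets of positions in windows of the digits, a second moment with respect to the Möbius factor, the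
upper bound sieve with the method of Romanoff for the primes, Davenport's theorem and bounds for the Fourier transform
of the Möbius function at frequencies with few changes of digits (`Pool.Agent.W93`, `Pool.Agent.H373R2.T7`).
-/

set_option autoImplicit false

namespace Pool.Agent.Results.MP_0bfb7f_nt.BoundedlyManyDigits

open Finset

/-- The Möbius function on the integers, `0` at the integers `n ≤ 0`. -/
noncomputable def mob (n : ℤ) : ℝ := if 1 ≤ n then ((ArithmeticFunction.moebius n.toNat : ℤ) : ℝ) else 0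

/-- The correlation sum `∑_{n ≤ N} θ(n) Λ(n) μ(n + y)`. For `θ = 1`, `y = 1` this is the sum of the problem (with
`n + 1` instead of `n`). -/
noncomputable def corr (θ : ℕ → ℝ) (y : ℤ) (N : ℕ) : ℝ :=
  ∑ n ∈ Icc 1 N, θ n * ArithmeticFunction.vonMangoldt n * mob (n + y)

/-- For all `b ≥ 2`, `B`, `P ≥ 1` and `ε, ρ, δ > 0` there are `K` and `X₀` with the following property. Let `X ≥ X₀`, and
let `T` be an ARBITRARY finite family of data `g = (h, e, θ)`: a shift `|h| ≤ B X`, a nonzero change `e ν` of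
absolute value less than `b` for every position `ν` (for example `e ν = 1`, or `e ν` the difference of a prescribed
new digit and of the digit number `ν` of `h` in base `b`), and a weight `θ` bounded by `1`. There is a set `S` of at
most `K` positions `ν ≥ P`, with `∑_{ν ∈ S} b ^ ν ≤ δ X`, such that for all but at most `ρ |T|` of the data in `T` (in
particular for all of them if `ρ |T| < 1`) and for ALL `N ≤ X` the correlation sum with the shift
`h + ∑_{ν ∈ S} e ν * b ^ ν` is at most `ε X` in absolute value. -/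
theorem result (b B P : ℕ) (hb : 2 ≤ b) (hP : 1 ≤ P) (ε ρ δ : ℝ) (hε : 0 < ε) (hρ : 0 < ρ) (hδ : 0 < δ) :
    ∃ K X₀ : ℕ, ∀ X : ℕ, X₀ ≤ X → ∀ (ι : Type) (T : Finset ι) (h : ι → ℤ) (e : ι → ℕ → ℤ) (θ : ι → ℕ → ℝ),
      (∀ g ∈ T, |h g| ≤ B * X ∧ (∀ ν, e g ν ≠ 0 ∧ |e g ν| < b) ∧ ∀ n, |θ g n| ≤ 1) →
      ∃ S : Finset ℕ, S.card ≤ K ∧ (∀ ν ∈ S, P ≤ ν) ∧ ∑ ν ∈ S, (b : ℝ) ^ ν ≤ δ * X ∧
        ∃ E ⊆ T, (E.card : ℝ) ≤ ρ * T.card ∧ ∀ g ∈ T, g ∉ E → ∀ N : ℕ, N ≤ X →
          |corr (θ g) (h g + ∑ ν ∈ S, e g ν * (b : ℤ) ^ ν) N| ≤ ε * X := by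
  have hnice : Pool.Agent.W93.LM.Nice (fun n => ((Pool.Agent.H373R2.T7.muR n : ℝ) : ℂ)) := by
    have h : (fun n => ((Pool.Agent.H373R2.T7.muR n : ℝ) : ℂ)) = Pool.Agent.H373R2.T7.muC := by
      ext n
      rw [Pool.Agent.H373R2.T7.muC_eq]
    rw [h]
    exact Pool.Agent.W93.LM.nice_muC
  obtain ⟨K, X₀, hmain⟩ := Pool.Agent.Y820.LL.main Pool.Agent.H373R2.T7.muR Pool.Agent.H373R2.T7.muR_abs
    Pool.Agent.Y820.LF.t_SBF Pool.Agent.Y820.LT.t_R (Pool.Agent.Y820.LL.t_Pu _ hnice) b hb 0 1 B P le_rfl hP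
    ε ρ (min δ 1) hε hρ (lt_min hδ one_pos) (min_le_right _ _) true
  refine ⟨K, X₀, fun X hX ι T h e θ hT => ?_⟩
  obtain ⟨S, hS1, hS2, hS3, E, hET, hEc, hE⟩ := hmain X hX ι T (fun _ _ => 1) (fun g _ => h g) (fun g _ => e g) θ
    (fun g _ i => ⟨one_ne_zero, by simp⟩) (fun g hg i j => (hT g hg).2.1 j) (fun g hg i => (hT g hg).1)
    (fun g hg => (hT g hg).2.2)
  refine ⟨S 0, hS3 0, hS1 0, ?_, E, hET, hEc, fun g hg hgE N hN => ?_⟩
  · have h1 := hS2 0
    have h2 : (0 : ℝ) ≤ ∑ ν ∈ S 0, (b : ℝ) ^ ν := sum_nonneg (fun ν _ => by positivity)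
    have h3 : (1 : ℝ) ≤ b := by exact_mod_cast (by omega : 1 ≤ b)
    have h4 : 1 * ∑ ν ∈ S 0, (b : ℝ) ^ ν ≤ b * ∑ ν ∈ S 0, (b : ℝ) ^ ν := mul_le_mul_of_nonneg_right h3 h2
    have h5 : min δ 1 * X ≤ δ * X := mul_le_mul_of_nonneg_right (min_le_left _ _) (Nat.cast_nonneg _)
    linarith
  · have h1 := hE g hg hgE (fun i => h g + ∑ ν ∈ S i, e g ν * (b : ℤ) ^ ν) (fun _ => rfl) N hN
    refine le_trans (le_of_eq ?_) h1
    congr 1
    unfold corr
    apply sum_congr rfl
    intro n _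
    unfold Pool.Agent.Y820.LL.fL Pool.Agent.Y820.LF.g0 Pool.Agent.Y820.LL.uI mob Pool.Agent.H373R2.T7.muR
    rw [if_pos rfl, univ_eq_empty, prod_empty, mul_one, one_mul]
    ring

end Pool.Agent.Results.MP_0bfb7f_nt.BoundedlyManyDigits
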