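import Pool.Agent.Y885.KP1

/-!
# The Möbius function and shifted primes, up to very few elements of an arbitrary set which meets every
interval `[x, l x]`
-/

set_option autoImplicit false

namespace Pool.Agent.Results.MP_0bfb7f_nt.ElementsOfAnySets

open Finset

/-- The sum over `n ≤ X` of `θ(n) Λ(n) μ(n + y)`. -/
noncomputable def corr (θ : ℕ → ℂ) (y X : ℕ) : ℂ :=
  ∑ n ∈ Icc 1 X, θ n * ((ArithmeticFunction.vonMangoldt n : ℝ) : ℂ) * ((ArithmeticFunction.moebius (n + y) : ℤ) : ℂ)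

/-- For all `l ≥ 2`, `κ` and `U` there is a constant `C` such that for all `H` and `B` there is an `N₀` with the
following property. Let `N ≥ N₀`, let `A` be an arbitrary set of integers which contains an element of every
interval `[x, l x]`, `x ≥ 1` (`C` and `N₀` do not depend on this set), let `0 ≤ h ≤ B N` be an arbitrary integer, and
let `θ m`, where `m` ranges over at most `log ^ κ N` indices, be arbitrary functions bounded by `1`. Then there is a
set `S` of at most `C (log log N) ^ 2` elements of `A`, all between `log ^ H N` and `N / log ^ H N`, such that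
`|∑ n ≤ X, θ m n * Λ(n) * μ(n + h + ∑ a ∈ S, a)| ≤ N / log ^ U N` for all `m` and all `X ≤ B N`. -/
theorem result (l κ U : ℕ) (hl : 2 ≤ l) : ∃ C : ℝ, ∀ H B : ℕ, ∃ N₀ : ℕ, ∀ N : ℕ, N₀ ≤ N →
    ∀ A : Set ℕ, (∀ x : ℕ, 1 ≤ x → ∃ a ∈ A, x ≤ a ∧ a ≤ l * x) → ∀ h : ℕ, h ≤ B * N →
    ∀ L : ℕ, (L : ℝ) ≤ Real.log N ^ κ → ∀ θ : Fin L → ℕ → ℂ, (∀ m n, ‖θ m n‖ ≤ 1) →
    ∃ S : Finset ℕ, (∀ a ∈ S, a ∈ A ∧ Real.log N ^ H ≤ a ∧ (a : ℝ) ≤ N / Real.log N ^ H) ∧
      (S.card : ℝ) ≤ C * Real.log (Real.log N) ^ 2 ∧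
      ∀ m, ∀ X : ℕ, X ≤ B * N → ‖corr (θ m) (h + ∑ a ∈ S, a) X‖ ≤ N / Real.log N ^ U := by
  obtain ⟨C, hC⟩ := Pool.Agent.Y885.las_kpt l 1 (κ + 2) U hl le_rfl Pool.Agent.H373R2.T7.muR Pool.Agent.Y885.fine_mu
  refine ⟨C, fun H B => ?_⟩
  obtain ⟨N₀, h0⟩ := hC H B
  refine ⟨N₀ + B + 8, fun N hN A hA h hh L hL θ hθ => ?_⟩
  have hNr : (8 : ℝ) ≤ N := by exact_mod_cast (by omega : 8 ≤ N)
  have hLog2 : 2 ≤ Real.log (N : ℝ) := by
    rw [Real.le_log_iff_exp_le (by linarith)]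
    have h1 : Real.exp 2 = Real.exp 1 ^ 2 := by rw [← Real.exp_nat_mul]; norm_num
    rw [h1]
    have h2 := Real.exp_one_lt_d9
    have h3 := Real.exp_pos 1
    nlinarith
  have hLog1 : 1 ≤ Real.log (N : ℝ) := by linarith
  have hs : (2 : ℝ) ^ 1 ≤ Real.log N ^ (κ + 2) := by
    calc (2 : ℝ) ^ 1 ≤ Real.log N ^ 1 := by rw [pow_one, pow_one]; exact hLog2
      _ ≤ _ := pow_le_pow_right₀ hLog1 (by omega)
  have hΛ : ∀ n : ℕ, 1 ≤ n → n ≤ B * N → ArithmeticFunction.vonMangoldt n ≤ Real.log N ^ 2 := by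
    intro n hn1 hn
    refine ArithmeticFunction.vonMangoldt_le_log.trans ?_
    have h1 : Real.log (n : ℝ) ≤ Real.log ((N : ℝ) * N) := by
      apply Real.log_le_log (by exact_mod_cast hn1)
      have : n ≤ N * N := hn.trans (Nat.mul_le_mul_right _ (by omega))
      exact_mod_cast this
    rw [Real.log_mul (by positivity) (by positivity)] at h1
    nlinarith
  obtain ⟨S, h1, h2, _, h4⟩ := h0 1 (fun _ => A) (fun _ => hA) N (by omega) hs (fun _ => h) (fun _ => hh) L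
    (hL.trans (pow_le_pow_right₀ hLog1 (by omega))) (fun _ => 1)
    (fun m n => θ m n * ((ArithmeticFunction.vonMangoldt n : ℝ) : ℂ)) (fun _ => le_rfl) (by
      intro m n hn1 hn
      rw [norm_mul, Complex.norm_real, Real.norm_eq_abs, abs_of_nonneg ArithmeticFunction.vonMangoldt_nonneg]
      calc ‖θ m n‖ * ArithmeticFunction.vonMangoldt n ≤ 1 * Real.log N ^ 2 :=
            mul_le_mul (hθ m n) (hΛ n hn1 hn) ArithmeticFunction.vonMangoldt_nonneg zero_le_one
        _ = Real.log N ^ 2 := one_mul _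
        _ ≤ _ := pow_le_pow_right₀ hLog1 (by omega))
  refine ⟨S 0, h1 0, h2 0, fun m X hX => ?_⟩
  refine le_trans (le_of_eq ?_) (h4 m univ univ_nonempty X (fun i _ => by rw [one_mul]; exact hX))
  congr 1
  unfold corr Pool.Agent.H373R2.T7.muR
  apply sum_congr rfl
  intro n _
  rw [Fin.prod_univ_one, one_mul]
  push_cast
  rfl

end Pool.Agent.Results.MP_0bfb7f_nt.ElementsOfAnySets
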