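import Pool.Agent.Y842.JC.Nat
import Pool.Agent.TH823.MRS.Circ5

/-!
# Correlations of the Möbius function with shifted primes for almost all shifts in windows of length `C log N`

The starting files contain the second moment method for the von Mangoldt weight in very short windows
(`Pool.Agent.Y842.JC`) and the theorem on exponential sums of the Möbius function in almost all short
intervals (`Pool.Agent.TH823.MRS`).
-/

set_option autoImplicit false

namespace Pool.Agent.Results.MP_0bfb7f_nt.ShortWindows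

open Finset

/-- For every `ε > 0` there is `C` such that for all large `N`, all `C log N ≤ H ≤ N`, all `B ≤ N` and every weight
`b` bounded by `1` (for example `b = 1`, a character, or any other arithmetic function of modulus at most `1`):
all but `ε H` of the shifts `h` in the window `B < h ≤ B + H` satisfy
`|∑_{n ≤ X} b(n) Λ(n) μ(n + h)| ≤ ε N` for all `X ≤ N`. For `B = 0`: almost all shifts `h ≤ C log N`. -/
theorem result (ε : ℝ) (hε : 0 < ε) :
    ∃ C : ℝ, ∃ N₀ : ℕ, ∀ N H : ℕ, N₀ ≤ N → C * Real.log N ≤ H → H ≤ N → ∀ B : ℕ, B ≤ N →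
      ∀ b : ℕ → ℂ, (∀ n, ‖b n‖ ≤ 1) →
      ({h : ℕ | B < h ∧ h ≤ B + H ∧ ∃ X : ℕ, X ≤ N ∧
        ε * N < ‖∑ n ∈ Icc 1 X, b n * ((ArithmeticFunction.vonMangoldt n : ℝ) : ℂ) *
          ((ArithmeticFunction.moebius (n + h) : ℤ) : ℂ)‖}.ncard : ℝ) ≤ ε * H := by
  classical
  obtain ⟨C, N₀, h⟩ := Pool.Agent.Y842.JC.mainN
    (fun n => ((ArithmeticFunction.moebius n : ℤ) : ℂ)) (fun n => by
      rw [Complex.norm_intCast]
      exact_mod_cast ArithmeticFunction.abs_moebius_le_one)
    Pool.Agent.TH823.MRS.mu_E 1 0 le_rfl 0 ε hε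
  refine ⟨C, N₀, fun N H hN hCH hHN B hB b hb => ?_⟩
  have h1 := h N hN H (by rw [pow_one]; exact hCH) hHN (fun _ => 0) (fun i j _ => Subsingleton.elim i j)
    (fun _ => Nat.zero_le _) (fun _ _ => Nat.zero_le _) B hB (fun _ n => b n) (fun _ n => hb n)
  rw [zero_add, pow_one] at h1
  refine le_trans ?_ h1
  rw [Nat.cast_le, ← Set.ncard_coe_finset]
  refine le_trans (le_of_eq ?_) (Set.ncard_le_ncard (s := (fun h : ℕ => ((fun _ => 0 : Fin 0 → ℕ), h - B)) ''
    {h : ℕ | B < h ∧ h ≤ B + H ∧ ∃ X : ℕ, X ≤ N ∧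
        ε * N < ‖∑ n ∈ Icc 1 X, b n * ((ArithmeticFunction.vonMangoldt n : ℝ) : ℂ) *
          ((ArithmeticFunction.moebius (n + h) : ℤ) : ℂ)‖}) ?_ (finite_toSet _))
  · symm
    apply Set.ncard_image_of_injOn
    intro x hx y hy hxy
    simp only [Prod.mk.injEq, true_and] at hxy
    have h2 := hx.1
    have h3 := hy.1
    omega
  · rintro x ⟨y, ⟨hy1, hy2, X, hX, hbig⟩, rfl⟩
    rw [coe_filter, Set.mem_setOf_eq, mem_product, Fintype.mem_piFinset, mem_Icc]
    refine ⟨⟨fun j => j.elim0, ?_, ?_⟩, X, hX, lt_of_lt_of_eq hbig ?_⟩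
    · show 1 ≤ y - B
      omega
    · show y - B ≤ H
      omega
    · congr 1
      apply sum_congr rfl
      intro n _
      have e1 : n + (y - B) + B = n + y := by omega
      simp only [e1, univ_eq_empty, prod_empty, mul_one, Fin.prod_univ_one, add_zero]

end Pool.Agent.Results.MP_0bfb7f_nt.ShortWindows
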